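import Pool.Agent.TH266.NS.Defs2
import Pool.Agent.TH603.EL.Hesse

/-!
# Nodal tubes: exact monomials by a dimension count
-/

namespace Pool.Agent.TH266.NS

open Pool.Agent.TH603.EL

variable {F : Type} [Field F]

/-- the series of the coefficients of `z ^ i` -/
noncomputable def kap (i : ℤ) (u : HR F) : HK F := Hs.co (tz F 0 (-i) 0 * u)

theorem kap_coeff (i : ℤ) (u : HR F) (a : ℝ) : (kap i u).coeff a = cf u a i 0 := by
  unfold kap
  rw [Hs.co_coeff, Hs.cf_tz_mul]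
  simp

theorem kap_add (i : ℤ) (u v : HR F) : kap i (u + v) = kap i u + kap i v := by
  ext a
  rw [HahnSeries.coeff_add, kap_coeff, kap_coeff, kap_coeff, Hs.cf_add]

theorem kap_zero (i : ℤ) : kap i (0 : HR F) = 0 := by
  ext a
  rw [kap_coeff]
  rfl

theorem kap_incl_mul (i : ℤ) (c : HK F) (u : HR F) : kap i (incl c * u) = c * kap i u := by
  unfold kap
  rw [← Hs.co_incl_mul]
  congr 1
  ring

theorem kap_sum {κ : Type} (i : ℤ) (s : Finset κ) (u : κ → HR F) :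
    kap i (∑ k ∈ s, u k) = ∑ k ∈ s, kap i (u k) := by
  classical
  induction s using Finset.induction_on with
  | empty => simp [kap_zero]
  | insert k s hk ih => rw [Finset.sum_insert hk, Finset.sum_insert hk, kap_add, ih]

theorem kap_gg (i : ℤ) (x y : HR F) (M : ℕ) (a : ℕ → HK F) :
    kap i (gg x y M a) = ∑ m ∈ EE M, a m * kap i (bb x y m) := by
  unfold gg
  rw [kap_sum]
  exact Finset.sum_congr rfl fun m _ => kap_incl_mul i _ _

theorem card_EE {M : ℕ} (hM : 1 ≤ M) : (EE M).card = M := by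
  unfold EE
  rw [Finset.card_erase_of_mem (by simp; omega), Finset.card_range]
  rfl

theorem exists_low_order (s : Finset ℕ) (a : ℕ → HK F) (h : ∃ m ∈ s, a m ≠ 0) :
    ∃ b : ℝ, (∀ m ∈ s, Low (a m) b) ∧ ∃ m ∈ s, (a m).coeff b ≠ 0 := by
  classical
  obtain ⟨m0, hm0, hne⟩ := h
  obtain ⟨m, hm, hmin⟩ := Finset.exists_min_image (s.filter fun m => a m ≠ 0)
    (fun m => (a m).order) ⟨m0, Finset.mem_filter.2 ⟨hm0, hne⟩⟩
  rw [Finset.mem_filter] at hm
  refine ⟨(a m).order, fun k hk c hc => ?_, m, hm.1, ?_⟩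
  · by_cases h0 : a k = 0
    · rw [h0]; rfl
    · exact HahnSeries.coeff_eq_zero_of_lt_order
        (hc.trans_le (hmin k (Finset.mem_filter.2 ⟨hk, h0⟩)))
  · exact fun h => hm.2 (HahnSeries.coeff_order_eq_zero.1 h)

theorem exact_mono_core {τ s : ℝ} (T : Tube F τ s) {M : ℕ} (hM : 1 ≤ M)
    (hint : ∀ k : ℤ, (M : ℝ) * τ ≠ k) {i : ℤ} (hi0 : -((M : ℝ) * τ) < i)
    (hi1 : (i : ℝ) < M * (1 - τ)) :
    ∃ a : ℕ → HK F, (∀ m ∈ EE M, Low (a m) (-(M : ℝ))) ∧ Low (gg T.x0 T.y0 M a) 0 ∧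
      (gg T.x0 T.y0 M a).coeff 0 = AddMonoidAlgebra.single (i, 0) 1 := by
  classical
  obtain ⟨k, hk⟩ : ∃ k : ℤ, k = ⌊(M : ℝ) * τ⌋ := ⟨_, rfl⟩
  have hk1 : (k : ℝ) < M * τ := by
    rcases (Int.floor_le ((M : ℝ) * τ)).lt_or_eq with h | h
    · rw [hk]; exact h
    · exact absurd h.symm (hint _)
  have hk2 : (M : ℝ) * τ < k + 1 := by rw [hk]; exact Int.lt_floor_add_one _
  -- the exponents
  let J : Finset ℤ := Finset.Ico (-k) (M - k)
  have hJ : ∀ j : ℤ, -((M : ℝ) * τ) ≤ j → (j : ℝ) ≤ M * (1 - τ) → j ∈ J := by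
    intro j h1 h2
    rw [Finset.mem_Ico]
    constructor
    · have : (-(k : ℝ)) < j + 1 := by linarith
      have : -k < j + 1 := by exact_mod_cast this
      omega
    · have : (j : ℝ) < M - k := by nlinarith
      exact_mod_cast this
  have hJc : J.card = M := by
    simp [J]
  -- the linear map
  let exd : (EE M → HK F) → ℕ → HK F := fun a m => if h : m ∈ EE M then a ⟨m, h⟩ else 0
  have hexd : ∀ (a : EE M → HK F) (m : EE M), exd a m = a m := fun a m => dif_pos m.2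
  let Φ : (EE M → HK F) →ₗ[HK F] (J → HK F) :=
    { toFun := fun a j => ∑ m : EE M, a m * kap (j : ℤ) (bb T.x0 T.y0 (m : ℕ))
      map_add' := by
        intro a a'
        funext j
        simp only [Pi.add_apply, add_mul, Finset.sum_add_distrib]
      map_smul' := by
        intro c a
        funext j
        simp only [Pi.smul_apply, smul_eq_mul, RingHom.id_apply, Finset.mul_sum, mul_assoc] }
  have hΦ : ∀ (a : EE M → HK F) (j : J), Φ a j = kap (j : ℤ) (gg T.x0 T.y0 M (exd a)) := by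
    intro a j
    rw [kap_gg, ← Finset.sum_coe_sort]
    show ∑ m : EE M, a m * kap (j : ℤ) (bb T.x0 T.y0 (m : ℕ)) = _
    refine Finset.sum_congr rfl fun m _ => ?_
    rw [hexd]
  have hlead : ∀ a : EE M → HK F, a ≠ 0 → ∃ b o : ℝ, (∀ m ∈ EE M, Low (exd a m) b) ∧ b ≤ o ∧ o ≤ b + M ∧
      Low (gg T.x0 T.y0 M (exd a)) o ∧ (∃ j : J, (Φ a j).coeff o ≠ 0) ∧
      ∀ i j : ℤ, cf (gg T.x0 T.y0 M (exd a)) o i j ≠ 0 → j = 0 ∧ i ∈ J := by
    intro a ha
    obtain ⟨m, hm⟩ : ∃ m, a m ≠ 0 := by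
      by_contra hne
      push Not at hne
      exact ha (funext hne)
    obtain ⟨b, hb1, hb2⟩ := exists_low_order (EE M) (exd a) ⟨m, m.2, by rw [hexd]; exact hm⟩
    obtain ⟨o, ho1, ho2, ho3, ⟨j, hj⟩, ho4⟩ := T.expo M (exd a) b hb1 hb2
    have hall : ∀ i j : ℤ, cf (gg T.x0 T.y0 M (exd a)) o i j ≠ 0 → j = 0 ∧ i ∈ J := by
      intro i j hij
      obtain ⟨h1, h2, h3⟩ := ho4 i j hij
      exact ⟨h1, hJ i h2 h3⟩
    refine ⟨b, o, hb1, ho1, ho2, ho3, ⟨⟨j, (hall j 0 hj).2⟩, ?_⟩, hall⟩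
    rw [hΦ, kap_coeff]
    exact hj
  have hinj : Function.Injective Φ := by
    rw [injective_iff_map_eq_zero]
    intro a ha
    by_contra hne
    obtain ⟨b, o, -, -, -, -, ⟨j, hj⟩, -⟩ := hlead a hne
    apply hj
    rw [ha]
    rfl
  have hsurj : Function.Surjective Φ := by
    rw [← LinearMap.injective_iff_surjective_of_finrank_eq_finrank]
    · exact hinj
    · rw [Module.finrank_fintype_fun_eq_card, Module.finrank_fintype_fun_eq_card, Fintype.card_coe,
        Fintype.card_coe, card_EE hM, hJc]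
  have hiJ : i ∈ J := hJ i hi0.le hi1.le
  obtain ⟨a, ha⟩ := hsurj (Pi.single ⟨i, hiJ⟩ 1)
  have ha0 : a ≠ 0 := by
    rintro rfl
    rw [map_zero] at ha
    have := congrFun ha ⟨i, hiJ⟩
    simp at this
  obtain ⟨b, o, h1, h2, h3, h4, ⟨j, hj⟩, h5⟩ := hlead a ha0
  have hval : ∀ (j : J) (c : ℝ), (Φ a j).coeff c = if (j : ℤ) = i ∧ c = 0 then 1 else 0 := by
    intro j c
    rw [ha]
    by_cases hji : (j : ℤ) = i
    · have : j = ⟨i, hiJ⟩ := Subtype.ext hji
      subst this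
      rw [Pi.single_eq_same, HahnSeries.coeff_one]
      simp
    · rw [Pi.single_eq_of_ne (fun h => hji (congrArg Subtype.val h)), if_neg (fun h => hji h.1)]
      rfl
  have ho : o = 0 := by
    by_contra hne
    apply hj
    rw [hval, if_neg (fun h => hne h.2)]
  subst ho
  refine ⟨exd a, fun m hm => (h1 m hm).mono (by linarith), h4, ?_⟩
  ext ⟨p, q⟩
  rw [AddMonoidAlgebra.coeff_single, Finsupp.single_apply]
  show cf (gg T.x0 T.y0 M (exd a)) 0 p q = _
  by_cases hpq : (i, (0 : ℤ)) = (p, q)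
  · rw [if_pos hpq]
    obtain ⟨rfl, rfl⟩ := Prod.mk.inj hpq
    rw [← kap_coeff, ← hΦ a ⟨i, hiJ⟩, hval]
    simp
  · rw [if_neg hpq]
    by_contra hne
    obtain ⟨hq, hp⟩ := h5 p q hne
    subst hq
    apply hne
    rw [← kap_coeff, ← hΦ a ⟨p, hp⟩, hval, if_neg]
    rintro ⟨h, -⟩
    exact hpq (by simp only at h; rw [h])

/-- exact monomials -/
theorem exact_mono {τ s : ℝ} (T : Tube F τ s) (h0 : 0 < τ) (h1 : τ < 1)
    {M : ℕ} (hM : 1 ≤ M) {i : ℤ} (hi0 : -((M : ℝ) * τ) < i) (hi1 : (i : ℝ) < M * (1 - τ)) :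
    ∃ a : ℕ → HK F, (∀ m ∈ EE M, Low (a m) (-(M : ℝ))) ∧ Low (gg T.x0 T.y0 M a) 0 ∧
      (gg T.x0 T.y0 M a).coeff 0 = AddMonoidAlgebra.single (i, 0) 1 := by
  classical
  by_cases hint : ∀ k : ℤ, (M : ℝ) * τ ≠ k
  · exact exact_mono_core T hM hint hi0 hi1
  push Not at hint
  obtain ⟨k, hk⟩ := hint
  have hM2 : 2 ≤ M := by
    by_contra hlt
    have hM1 : M = 1 := by omega
    rw [hM1, Nat.cast_one, one_mul] at hk
    rw [hk] at h0 h1
    have h2 : (0 : ℤ) < k := by exact_mod_cast h0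
    have h3 : k < (1 : ℤ) := by exact_mod_cast h1
    omega
  obtain ⟨M', rfl⟩ : ∃ M', M = M' + 1 := ⟨M - 1, by omega⟩
  push_cast at hk hi0 hi1
  have hk' : (M' : ℝ) * τ = k - τ := by linarith
  obtain ⟨a, ha1, ha2, ha3⟩ := exact_mono_core T (M := M') (by omega) (i := i) (by
    intro l hl
    rw [hk'] at hl
    have h2 : (τ : ℝ) = ((k - l : ℤ) : ℝ) := by push_cast; linarith
    rw [h2] at h0 h1
    have h3 : (0 : ℤ) < k - l := by exact_mod_cast h0
    have h4 : k - l < (1 : ℤ) := by exact_mod_cast h1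
    omega) (by
    rw [hk] at hi0
    have h2 : -k < i := by exact_mod_cast hi0
    have h3 : -k + 1 ≤ i := h2
    have h4 : (-(k : ℝ) + 1) ≤ i := by exact_mod_cast h3
    rw [hk']
    linarith) (by
    have h2 : (i : ℝ) < M' + 1 - k := by nlinarith
    have h3 : i < M' + 1 - k := by exact_mod_cast h2
    have h4 : i ≤ M' - k := by omega
    have h5 : (i : ℝ) ≤ M' - k := by exact_mod_cast h4
    nlinarith)
  have hsub : EE M' ⊆ EE (M' + 1) := by
    intro m hm
    unfold EE at hm ⊢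
    rw [Finset.mem_erase, Finset.mem_range] at hm ⊢
    omega
  have hgg : gg T.x0 T.y0 (M' + 1) (fun m => if m ∈ EE M' then a m else 0) = gg T.x0 T.y0 M' a := by
    unfold gg
    rw [← Finset.sum_subset hsub]
    · exact Finset.sum_congr rfl fun m hm => by simp only [if_pos hm]
    · intro m _ hm
      simp only [if_neg hm, map_zero, zero_mul]
  refine ⟨fun m => if m ∈ EE M' then a m else 0, fun m _ => ?_, ?_, ?_⟩
  · simp only
    split_ifs with h
    · exact (ha1 m h).mono (by push_cast; linarith)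
    · exact low_zero _
  · rw [hgg]; exact ha2
  · rw [hgg]; exact ha3

end Pool.Agent.TH266.NS
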