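import Pool.Agent.TH793.NS.Tube
import Pool.Agent.TH266.NS.Rank
import Pool.Agent.TH643.NS.Fij
import Pool.Agent.TH558.NS.Trans
import Pool.Agent.TH75.NS.PA

/-!
# Asymptotic independence on the weighted planes `P(1, 1, r)` for all `n ≥ 4 r`
-/

namespace Pool.Agent.TH266.NS

open Pool.Agent.TH603.EL Pool.Agent.TH880.NB Pool.Agent.TH176.Nag

/-- the rank form of the key lemma -/
theorem key {r : ℕ} (hr : 2 ≤ r) {τ : ℝ} (h0 : 0 < τ) (h1 : τ < 1 / 2) : Key r τ := by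
  intro n w e N h
  obtain ⟨T, hTS, hTN, K, _, _, x, y, hx, hy, hE⟩ := h
  obtain ⟨s, hs⟩ : ∃ s : ℝ, s = 2 * e + 1 := ⟨_, rfl⟩
  have hs0 : 0 < s := by rw [hs]; positivity
  have hτ1 : τ < 1 := by linarith
  rw [← hTN]
  exact Rk_of_family (U := (Pool.Agent.TH793.NS.tube K h0 h1 hs0).x)
    (V := (Pool.Agent.TH793.NS.tube K h0 h1 hs0).y)
    (fun hp hq => (Pool.Agent.TH793.NS.tube K h0 h1 hs0).point hp hq) hx hy T hE
    (S := Wtd r e) (fun m hm => ⟨hm.1, hm.2.1⟩) fun m hm =>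
      exists_fij (Pool.Agent.TH793.NS.tube K h0 h1 hs0) h0 hτ1 hr (by rw [hs]; linarith) (hTS hm)
        fun M hM i hi0 hi1 => exact_mono _ h0 hτ1 hM hi0 hi1

/-- asymptotic independence on `P(1, 1, r)` at `n ≥ 4 r` points -/
theorem PA_all {r n : ℕ} (hr : 2 ≤ r) (hn : 4 * r ≤ n) : PA n 0 r :=
  PA_of_key hr (fun _ h0 h1 => key hr h0 h1) hn

end Pool.Agent.TH266.NS
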