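import Pool.Agent.TH603.EL.Low
import Pool.Agent.TH880.NB.Rk

/-!
# Nodal tubes: interface

`Tube F τ s` collects what is needed about the two-parameter family of points `(x, y)` near the node
of the curve `y ^ 2 = (1 + x) (x ^ 2 - t)`; `(x0, y0)` is the same family for `Y = 0`, on the curve.
-/

namespace Pool.Agent.TH266.NS

open Pool.Agent.TH603.EL

/-- the monomial of pole order `m` (`m ≠ 1`) on a cubic in Weierstrass form -/
def bb {R : Type} [CommRing R] (x y : R) (m : ℕ) : R :=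
  if Even m then x ^ (m / 2) else x ^ ((m - 3) / 2) * y

/-- the pole orders `0, 2, 3, ..., M` -/
def EE (M : ℕ) : Finset ℕ := (Finset.range (M + 1)).erase 1

variable {F : Type} [Field F]

/-- the value at `(x, y)` of the polynomial with coefficients `a` -/
noncomputable def gg (x y : HR F) (M : ℕ) (a : ℕ → HK F) : HR F :=
  ∑ m ∈ EE M, incl (a m) * bb x y m

/-- the cubic -/
noncomputable def hh (x y : HR F) : HR F := y ^ 2 - (1 + x) * (x ^ 2 - tz F 1 0 0)

variable (F) in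
/-- the analytic input, at radius `τ` and with tube parameter `s` -/
structure Tube (τ s : ℝ) where
  x : HR F
  y : HR F
  x0 : HR F
  y0 : HR F
  low_x0 : Low x0 0
  low_y0 : Low y0 0
  low_x : Low (x - x0) s
  low_y : Low (y - y0) s
  /-- the exponent bound -/
  expo : ∀ (M : ℕ) (a : ℕ → HK F) (b : ℝ), (∀ m ∈ EE M, Low (a m) b) →
    (∃ m ∈ EE M, (a m).coeff b ≠ 0) →
    ∃ o : ℝ, b ≤ o ∧ o ≤ b + M ∧ Low (gg x0 y0 M a) o ∧ (∃ i : ℤ, cf (gg x0 y0 M a) o i 0 ≠ 0) ∧
      ∀ i j : ℤ, cf (gg x0 y0 M a) o i j ≠ 0 → j = 0 ∧ -(M * τ) ≤ i ∧ (i : ℝ) ≤ M * (1 - τ)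
  /-- the leading term of the cubic -/
  low_h : Low (hh x y) (1 + s)
  lead_h : (hh x y).coeff (1 + s) = AddMonoidAlgebra.single (0, 1) (-1)
  point : ∀ {p q : F} (hp : p ≠ 0) (hq : q ≠ 0), evp hp hq x ≠ 0 ∧ evp hp hq y ≠ 0

end Pool.Agent.TH266.NS
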