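import Pool.Agent.TH266.NS.Defs
import Pool.Agent.TH880.NB.Cls

/-!
# Nodal tubes: second part of the interface
-/

namespace Pool.Agent.TH266.NS

open Pool.Agent.TH603.EL Pool.Agent.TH880.NB

variable {F : Type} [Field F]

/-- the value at `(x, y)` of the polynomial `P` -/
noncomputable def evU (x y : HR F) (P : (ℤ × ℤ) →₀ HK F) : HR F :=
  P.sum fun m c => incl c * (x ^ m.1.toNat * y ^ m.2.toNat)

/-- the open triangle of slope `τ`: base `2 e`, slopes `4 r τ` and `4 r (1 - τ)` -/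
def Tri (r e : ℕ) (τ : ℝ) : Set (ℤ × ℤ) :=
  {m | 0 ≤ m.2 ∧ -(2 * ((e : ℝ) - 2 * r * m.2) * τ) < m.1 ∧
    (m.1 : ℝ) < 2 * ((e : ℝ) - 2 * r * m.2) * (1 - τ)}

/-- the exponents of the polynomials of degree `≤ e + r - 2` on the weighted plane `P(1, 1, r)` -/
def Wtd (r e : ℕ) : Set (ℤ × ℤ) :=
  {m | 0 ≤ m.1 ∧ 0 ≤ m.2 ∧ m.1 + r * m.2 ≤ (e : ℤ) + r - 2}

/-- the rank form of the key lemma -/
def Key (r : ℕ) (τ : ℝ) : Prop :=
  ∀ (n : ℕ) (w : Fin n → ℕ) (e N : ℕ), Rk w (Tri r e τ) N → Rk w (Wtd r e) N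

end Pool.Agent.TH266.NS
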